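import Pool.Agent.Q174.TB.Final

/-!
# Alexander polynomials of two-bridge knots: concave, then convex

The definitions are in `Pool.Agent.Q174.TB.Diag` (the diagrams), `Pool.Agent.Q174.TB.Conway` (the
Conway and the Alexander polynomial) and `Pool.Agent.Q174.TB.Final`; oriented sliced link diagrams
and the skein rules are those of `Pool.Agent.Helper454.Wh.Defs`.
-/

set_option autoImplicit false

namespace Pool.Agent.Results.MP_7cfe9c_gt.ConcaveConvex

open Pool.Agent.Helper454.Wh
open Pool.Agent.Helper454.Kauf (IsKnot)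
open Q174.TBD

/-- The Conway polynomial exists, the normal forms with an even number of entries are diagrams of
knots, and the coefficients `a₀, …, aₙ` of the Alexander polynomial of every two-bridge knot form
first a concave and then a convex sequence. -/
theorem result :
    (∃ Λ : OWord → LaurentPolynomial ℤ, IsConway Λ) ∧
    (∀ b : List ℤ, Even b.length → IsKnot (forget (normalForm b))) ∧
    ∀ Λ : OWord → LaurentPolynomial ℤ, IsConway Λ → ∀ K : OWord, IsTwoBridgeKnot K →
      ∃ Δ : LaurentPolynomial ℤ, IsAlexander Λ K Δ ∧ ∃ (ε : ℤ) (n : ℕ) (a : ℕ → ℤ),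
        (ε = 1 ∨ ε = -1) ∧ (∀ i ≤ n, 0 < a i) ∧ Δ = alexForm ε n a ∧
        ∃ k ≤ n, Concave a 0 k ∧ Convex a k n :=
  ⟨exists_conway, fun _ hb => isKnot_normalForm hb, fun _ hΛ _ hK => main hΛ hK⟩

end Pool.Agent.Results.MP_7cfe9c_gt.ConcaveConvex
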