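import Pool.Agent.Q174.TB.Final

/-!
# The two words in the printed question cannot stand in the printed order
-/

set_option autoImplicit false

namespace Pool.Agent.Results.MP_7cfe9c_gt.PrintedOrder

open Pool.Agent.Helper454.Wh
open Pool.Agent.Helper454.Kauf (IsKnot)
open Q174.TBD

theorem val (ε a v : ℤ) (hε : ε = 1 ∨ ε = -1) (ha : 0 < a) (h : v = ε * a) : a = |v| := by
  rcases hε with h1 | h1 <;> rw [h, h1]
  · rw [one_mul, abs_of_pos ha]
  · rw [neg_one_mul, abs_neg, abs_of_pos ha]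

/-- For a certain two-bridge knot (with `a = (63, 41, 11, 1)`), the coefficients do not form first a
convex and then a concave sequence. -/
theorem result : ∀ Λ : OWord → LaurentPolynomial ℤ, IsConway Λ →
    ∃ K : OWord, IsTwoBridgeKnot K ∧ IsKnot (forget K) ∧ ∃ Δ : LaurentPolynomial ℤ,
      IsAlexander Λ K Δ ∧ ∃ (ε : ℤ) (n : ℕ) (a : ℕ → ℤ),
        (ε = 1 ∨ ε = -1) ∧ (∀ i ≤ n, 0 < a i) ∧ Δ = alexForm ε n a ∧
        ∀ k ≤ n, ¬ (Convex a 0 k ∧ Concave a k n) := by
  intro Λ hΛ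
  have hb : ∀ x ∈ [(1 : ℤ), -1, 1, -1, 1, -1], x ≠ 0 := by
    intro x hx
    simp only [List.mem_cons, List.not_mem_nil, or_false] at hx
    omega
  refine ⟨normalForm [1, -1, 1, -1, 1, -1], ⟨_, by decide, hb, Relation.EqvGen.refl _⟩,
    isKnot_normalForm (by decide), ?_⟩
  have hv : Λ (normalForm [1, -1, 1, -1, 1, -1]) =
      Polynomial.toLaurent (PQ [-1, 1, -1, 1, -1, 1]).1 := by
    rw [value hΛ.1, pairV_eq hΛ]
    rfl
  have hb' : ∀ x ∈ [(-1 : ℤ), 1, -1, 1, -1, 1], x ≠ 0 := by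
    intro x hx
    simp only [List.mem_cons, List.not_mem_nil, or_false] at hx
    omega
  obtain ⟨a, ε, k, hε, -, hpos, hzero, hFP, -, -⟩ :=
    Q174.TB.shape [-1, 1, -1, 1, -1, 1] hb' (g := 3) rfl
  refine ⟨_, ⟨_, hv, rfl⟩, ε, 3, a, hε, hpos, ?_, ?_⟩
  · have hc := coeffs [-1, 1, -1, 1, -1, 1]
    ext m
    rcases Int.even_or_odd' m with ⟨j, hj | hj⟩
    · rw [hj, alexForm_coeff hzero]
      have h1 := (hc (3 + j)).1
      have h2 := hFP j
      push_cast at h2
      rw [show 2 * ((3 : ℤ) + j) - (([-1, 1, -1, 1, -1, 1] : List ℤ).length : ℤ) = 2 * j by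
        simp; ring] at h1
      rw [h1, h2]
    · rw [hj, alexForm_coeff_odd]
      have h1 := (hc (3 + j)).2.1
      rw [show 2 * ((3 : ℤ) + j) - (([-1, 1, -1, 1, -1, 1] : List ℤ).length : ℤ) + 1 =
        2 * j + 1 by simp; ring] at h1
      exact h1
  · have f0 : (Q174.TB.FP [-1, 1, -1, 1, -1, 1]).1 3 = 63 := by decide
    have f1 : (Q174.TB.FP [-1, 1, -1, 1, -1, 1]).1 4 = -41 := by decide
    have f2 : (Q174.TB.FP [-1, 1, -1, 1, -1, 1]).1 5 = 11 := by decide
    have f3 : (Q174.TB.FP [-1, 1, -1, 1, -1, 1]).1 6 = -1 := by decide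
    have h0 := hFP 0
    have h1 := hFP 1
    have h2 := hFP 2
    have h3 := hFP 3
    have s0 : Q174.TB.sg 0 = 1 := by decide
    have s1 : Q174.TB.sg 1 = -1 := by decide
    have s2 : Q174.TB.sg 2 = 1 := by decide
    have s3 : Q174.TB.sg 3 = -1 := by decide
    push_cast at h0 h1 h2 h3
    rw [s0, f0] at h0
    rw [s1, f1] at h1
    rw [s2, f2] at h2
    rw [s3, f3] at h3
    have p0 := hpos 0 (by norm_num)
    have p1 := hpos 1 (by norm_num)
    have p2 := hpos 2 (by norm_num)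
    have p3 := hpos 3 (by norm_num)
    have e0 : a 0 = 63 := by rcases hε with h | h <;> rw [h] at h0 <;> omega
    have e1 : a 1 = 41 := by rcases hε with h | h <;> rw [h] at h1 <;> omega
    have e2 : a 2 = 11 := by rcases hε with h | h <;> rw [h] at h2 <;> omega
    have e3 : a 3 = 1 := by rcases hε with h | h <;> rw [h] at h3 <;> omega
    rintro k hk ⟨hc1, hc2⟩
    by_cases hk1 : k ≤ 1
    · have := hc2 2 (by omega) (by norm_num)
      norm_num at this
      omega
    · have := hc1 1 (by norm_num) (by omega)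
      norm_num at this
      omega

end Pool.Agent.Results.MP_7cfe9c_gt.PrintedOrder
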